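import Mathlib
import Pool.Agent.H354.NORE.Stmts

set_option autoImplicit false

open Matrix

namespace H354P.H9B

variable {k : Type} [Field k]

lemma ma_coeff (u v : MonoidAlgebra k (FreeMonoid Bool)) (i : Bool) (m : FreeMonoid Bool) :
    (u * MonoidAlgebra.single (FreeMonoid.of i) 1 +
      v * MonoidAlgebra.single (FreeMonoid.of (!i)) 1).coeff (m * FreeMonoid.of i) =
    u.coeff m := by
  rw [MonoidAlgebra.coeff_add, Finsupp.add_apply,
    MonoidAlgebra.coeff_mul_single_eq_coeff_mul (m₂ := m) (fun m' _ => mul_left_inj _),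
    MonoidAlgebra.coeff_mul_single_of_forall_mul_ne, mul_one, add_zero]
  intro d hd
  have h := congrArg FreeMonoid.toList hd
  simp only [FreeMonoid.toList_mul, FreeMonoid.toList_of] at h
  have h2 := (List.append_inj' h rfl).2
  simp at h2

lemma ma_aux (u v : MonoidAlgebra k (FreeMonoid Bool))
    (h : u * MonoidAlgebra.single (FreeMonoid.of true) 1 +
      v * MonoidAlgebra.single (FreeMonoid.of false) 1 = 0) : u = 0 ∧ v = 0 := by
  constructor
  · ext m
    have h1 := ma_coeff u v true m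
    rw [← h1]
    simp only [Bool.not_true]
    rw [h]
    simp
  · ext m
    have h1 := ma_coeff v u false m
    rw [← h1]
    simp only [Bool.not_false]
    rw [add_comm, h]
    simp

lemma fa_aux (u v : FreeAlgebra k Bool)
    (h : u * FreeAlgebra.ι k true + v * FreeAlgebra.ι k false = 0) : u = 0 ∧ v = 0 := by
  let e := FreeAlgebra.equivMonoidAlgebraFreeMonoid (R := k) (X := Bool)
  have h1 : ∀ i, e (FreeAlgebra.ι k i) = MonoidAlgebra.single (FreeMonoid.of i) 1 := by
    intro i
    simp [e, FreeAlgebra.equivMonoidAlgebraFreeMonoid]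
  have h2 := congrArg e h
  rw [map_add, map_mul, map_mul, h1, h1, map_zero] at h2
  obtain ⟨h3, h4⟩ := ma_aux _ _ h2
  exact ⟨e.map_eq_zero_iff.mp h3, e.map_eq_zero_iff.mp h4⟩

lemma iota_ne (i : Bool) : FreeAlgebra.ι k i ≠ 0 := by
  intro h
  have h1 := fa_aux (k := k) (if i = true then 1 else 0) (if i = false then 1 else 0) (by
    cases i <;> simp [h])
  cases i <;> simp at h1

/-- the matrix -/
noncomputable def A (k : Type) [Field k] : Matrix (Fin 3) (Fin 2) (FreeAlgebra k Bool) :=
  !![FreeAlgebra.ι k true, 0; FreeAlgebra.ι k false, 0; 0, 1]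

end H354P.H9B

open H354P.H9B in
theorem H354P.taskBase (k : Type) [Field k] : H354P.TaskBase k := by
  intro hE4 hT
  obtain ⟨S, _, _, _, φ, s, hφ, hs, -, -, hd1, hd2⟩ := hE4 (FreeAlgebra k Bool) 3 2 (A k) 0 0
    (by simp) (by simp) (by
      intro ρ h
      have h0 := congrFun h 0
      have h1 := congrFun h 1
      simp [A, Matrix.vecMul, dotProduct, Fin.sum_univ_three] at h0 h1
      obtain ⟨h2, h3⟩ := fa_aux _ _ h0
      funext i
      fin_cases i <;> simp [h1, h2, h3]) (by
      intro y h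
      have h0 := congrFun h 0
      have h2 := congrFun h 2
      simp [A, Matrix.mulVec, dotProduct, Fin.sum_univ_two] at h0 h2
      have h3 : y 0 = 0 := h0
      funext i
      fin_cases i <;> simp [h2, h3]) (by
      rintro ⟨c, d, h⟩
      have h00 := congrFun (congrFun h 0) 0
      have h01 := congrFun (congrFun h 0) 1
      have h21 := congrFun (congrFun h 2) 1
      simp [A, vecMulVec_apply] at h00 h01 h21
      rcases h01 with h | h
      · rw [h, zero_mul] at h00
        exact iota_ne true h00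
      · rw [h, mul_zero] at h21
        exact one_ne_zero h21)
  obtain ⟨S', _, _, _, ψ, a1, b1, a2, b2, hψ, h1, h2, h3, h4⟩ := hT S 2 3 _ _ hd1 hd2
  set M : Matrix (Fin 3) (Fin 2) S := (A k).map φ with hM
  set M' : Matrix (Fin 3) (Fin 2) S' := M.map ψ with hM'
  set s' : Matrix (Fin 2) (Fin 3) S' := s.map ψ with hs'
  have e1 : (s * M).map ψ = s' * M' := Matrix.map_mul (f := (ψ : S →+* S'))
  have e2 : (M * s).map ψ = M' * s' := Matrix.map_mul (f := (ψ : S →+* S'))
  have e3 : (s * M * s).map ψ = s' * M' * s' := by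
    rw [show (s * M * s).map ψ = (s * M).map ψ * s.map ψ from
      Matrix.map_mul (f := (ψ : S →+* S')), e1]
  have hs2 : s' * M' * s' = s' := by rw [← e3, hs]
  have e4 : (1 - (0 : Matrix (Fin 2) (Fin 2) (FreeAlgebra k Bool)).map φ - s * M).map ψ =
      1 - s' * M' := by
    rw [Matrix.map_zero _ (map_zero φ), sub_zero, Matrix.map_sub _ (map_sub ψ),
      Matrix.map_one _ (map_zero ψ) (map_one ψ), e1]
  have e5 : (1 - (0 : Matrix (Fin 3) (Fin 3) (FreeAlgebra k Bool)).map φ - M * s).map ψ =
      1 - M' * s' := by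
    rw [Matrix.map_zero _ (map_zero φ), sub_zero, Matrix.map_sub _ (map_sub ψ),
      Matrix.map_one _ (map_zero ψ) (map_one ψ), e2]
  rw [e4] at h1
  rw [e5] at h3
  have q1 : s' * M' * a1 = 0 := by
    have : (1 - s' * M') * a1 = a1 := by rw [← h1, Matrix.mul_assoc, h2, Matrix.mul_one]
    rw [Matrix.sub_mul, Matrix.one_mul, sub_eq_self] at this
    exact this
  have q2 : b1 * s' = 0 := by
    have : b1 * (1 - s' * M') = b1 := by rw [← h1, ← Matrix.mul_assoc, h2, Matrix.one_mul]
    rw [Matrix.mul_sub, Matrix.mul_one, sub_eq_self] at this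
    rw [← hs2, ← Matrix.mul_assoc, this, Matrix.zero_mul]
  have q3 : s' * a2 = 0 := by
    have : (1 - M' * s') * a2 = a2 := by rw [← h3, Matrix.mul_assoc, h4, Matrix.mul_one]
    rw [Matrix.sub_mul, Matrix.one_mul, sub_eq_self] at this
    rw [← hs2, Matrix.mul_assoc, Matrix.mul_assoc, ← Matrix.mul_assoc M', this, Matrix.mul_zero]
  have q4 : b2 * (M' * s') = 0 := by
    have : b2 * (1 - M' * s') = b2 := by rw [← h3, ← Matrix.mul_assoc, h4, Matrix.one_mul]
    rw [Matrix.mul_sub, Matrix.mul_one, sub_eq_self] at this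
    exact this
  refine ⟨S', inferInstance, inferInstance, inferInstance, M' * s' * M' + a2 * b1, s' + a1 * b2,
    ?_, ?_⟩
  · have t1 : M' * s' * M' * s' = M' * s' := by
      rw [Matrix.mul_assoc, Matrix.mul_assoc, ← Matrix.mul_assoc s', hs2]
    have t2 : M' * s' * M' * (a1 * b2) = 0 := by
      rw [← Matrix.mul_assoc, Matrix.mul_assoc M', Matrix.mul_assoc M', q1, Matrix.mul_zero,
        Matrix.zero_mul]
    have t3 : a2 * b1 * s' = 0 := by rw [Matrix.mul_assoc, q2, Matrix.mul_zero]
    have t4 : a2 * b1 * (a1 * b2) = 1 - M' * s' := by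
      rw [← h3, Matrix.mul_assoc, ← Matrix.mul_assoc b1, h2, Matrix.one_mul]
    rw [Matrix.add_mul, Matrix.mul_add, Matrix.mul_add, t1, t2, t3, t4]
    abel
  · have t1 : s' * (M' * s' * M') = s' * M' := by
      rw [← Matrix.mul_assoc, ← Matrix.mul_assoc, hs2]
    have t2 : s' * (a2 * b1) = 0 := by rw [← Matrix.mul_assoc, q3, Matrix.zero_mul]
    have t3 : a1 * b2 * (M' * s' * M') = 0 := by
      rw [Matrix.mul_assoc, ← Matrix.mul_assoc b2, q4, Matrix.zero_mul, Matrix.mul_zero]
    have t4 : a1 * b2 * (a2 * b1) = 1 - s' * M' := by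
      rw [← h1, Matrix.mul_assoc, ← Matrix.mul_assoc b2, h4, Matrix.one_mul]
    rw [Matrix.add_mul, Matrix.mul_add, Matrix.mul_add, t1, t2, t3, t4]
    abel
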